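import Pool.Agent.U365.POW.E
import Pool.Agent.Results.MP_7ecdd4_nt.DivisorsInWindows
import Pool.Agent.U951.TR.Nat

/-!
# The strong `n`-conjecture for all tuples whose product has a divisor near `s(m)`, `m - φ(m)` or `α m + β f(m)`

Let `n ≥ 4`, `A > 0`, `M ≥ 10 / (3 n - 2)` and `s = A (3 n - 5) / ((3 n - 2) M)`. Let `s(m)` be the sum of the proper
divisors of `m`. Let `G` have steps bounded below by a positive constant and growth at most `v ^ d`, for example `G v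
= v`, `n ≥ 4`, `A > 0`, `M ≥ 10 / (3 n - 2)`, `θ ≥ 0` and `e = d s + θ < 1`. For a set of `m` of lower density at
least `1 - e`: ALL tuples `x` of nonzero pairwise coprime integers with sum zero, for which the product `x_1 ⋯ x_n`
has a divisor `m` which differs from `G (s(m))` by at most `s(m) ^ θ`, and `max |x_j| ≤ m ^ A`, satisfy `max |x_j| ≤
rad (x_1 ⋯ x_n) ^ M`; and the same holds for `m - φ(m)` in place of `s(m)`. More precisely this holds for almost all
`m` with a divisor `≥ m ^ (e + ρ)` which is a prime or the product of two different primes, and for the values `g = α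
m + β f(m)` of multiplicative functions with `f p = p + c` at the primes, uniformly in `|α|, |β| ≤ N ^ δ` and with a
power saving in the number of the exceptional `m`.

As `M` may be large, `e` may be as close to `θ` as we like. Proof. The starting theorem `FewExceptions` of this
problem bounds the number of the exceptional tuples with `max |x_j| ≤ X` by `X ^ (s / A + ε)`, and a product has `X ^
o(1)` divisors (`Pool.Agent.R559.NP.count_div`). Let `m = k v p` with large primes `p ≠ v`. Then `g = A v p + B (v +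
p) + B c`, `A = α k + β f(k)`, `B = β c f(k)`, and so `(A v + B) (A p + B) = A g + B² - A B c`: for given `g`, `k`,
`α`, `β` there are only `N^o(1)` possibilities for `p` and `v` (tool `Pool.Agent.U365.POW`).
-/

set_option autoImplicit false

namespace Pool.Agent.Results.MP_7ecdd4_nt.AliquotValues

open DivisorsInWindows (Admissible rad height Good κ_nonneg hcount)
open Pool.Agent.U365.POW (Values Dens values_set values_mono dens_mono)
open Pool.Agent.N733.TG (Expanding)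

/-- all tuples `x` of nonzero pairwise coprime integers with sum zero, for which the product `x_1 ⋯ x_n` has a divisor `m` with
`|m - G v| ≤ v ^ θ` and `max |x_j| ≤ m ^ A`, satisfy `max |x_j| ≤ rad (x_1 ⋯ x_n) ^ M` -/
def Near (n : ℕ) (A M : ℝ) (G : ℕ → ℝ) (θ : ℝ) (v : ℕ) : Prop :=
  ∀ m : ℕ, 1 ≤ m → |(m : ℝ) - G v| ≤ (v : ℝ) ^ θ → Good n A M m

/-- the exponent -/
noncomputable def expo (n : ℕ) (A M : ℝ) : ℝ := A * ((3 * (n : ℝ) - 5) / (3 * (n : ℝ) - 2) / M)

/-- the exceptional tuples -/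
def Bad (n : ℕ) (M : ℝ) (x : Fin n → ℤ) : Prop := Admissible x ∧ ¬ height x ≤ (rad x : ℝ) ^ M

lemma M_pos {n : ℕ} {M : ℝ} (hn : 4 ≤ n) (hM : 10 / (3 * (n : ℝ) - 2) ≤ M) : 0 < M := by
  have h4 : (4 : ℝ) ≤ n := by exact_mod_cast hn
  exact lt_of_lt_of_le (div_pos (by norm_num) (by linarith)) hM

lemma expo_nonneg {n : ℕ} {A M : ℝ} (hn : 4 ≤ n) (hA : 0 < A) (hM : 10 / (3 * (n : ℝ) - 2) ≤ M) : 0 ≤ expo n A M :=
  mul_nonneg hA.le (div_nonneg (κ_nonneg hn) (M_pos hn hM).le)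

open Classical in
lemma count {n : ℕ} {A M : ℝ} (hn : 4 ≤ n) (hA : 0 < A) (hM : 10 / (3 * (n : ℝ) - 2) ≤ M) (ε : ℝ) (hε : 0 < ε) :
    ∃ C : ℝ, ∀ X : ℝ, 1 ≤ X →
      {t : ℕ | t ∈ {t : ℕ | 1 ≤ t ∧ t ∈ Pool.Agent.R559.NP.DivBad (Bad n M) A} ∧ (t : ℝ) ≤ X}.Finite ∧
      ({t : ℕ | t ∈ {t : ℕ | 1 ≤ t ∧ t ∈ Pool.Agent.R559.NP.DivBad (Bad n M) A} ∧ (t : ℝ) ≤ X}.ncard : ℝ) ≤
        C * X ^ (expo n A M + ε) := by
  refine Pool.Agent.U951.TR.count_of_card _ (expo_nonneg hn hA hM) (fun ξ hξ => ?_) ε hε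
  obtain ⟨C, hC⟩ := Pool.Agent.R559.NP.count_div (n := n) (Bad := Bad n M) (fun x hx => hx.1.1)
    (s := (3 * (n : ℝ) - 5) / (3 * (n : ℝ) - 2) / M) hA (fun δ hδ => hcount hn hM δ hδ) ξ hξ
  refine ⟨C, fun X hX => le_trans (le_of_eq ?_) (hC X hX)⟩
  congr!

lemma near_of {n : ℕ} {A M θ : ℝ} {G : ℕ → ℝ} {v : ℕ}
    (h : ∀ t ∈ {t : ℕ | 1 ≤ t ∧ t ∈ Pool.Agent.R559.NP.DivBad (Bad n M) A}, ¬ |(t : ℝ) - G v| ≤ (v : ℝ) ^ θ) :
    Near n A M G θ v := by
  intro m hm hw x hx hd hh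
  by_contra hcon
  exact h m ⟨hm, ⟨x, ⟨hx, hcon⟩, hh, hd⟩⟩ hw

/-- **Theorem.** Let `G` have steps `≥ a > 0` and growth at most `v ^ d`, `n ≥ 4`, `A > 0`, `M ≥ 10 / (3 n - 2)`, `θ ≥ 0`
and `e = d s + θ < 1`. For every `ρ > 0` the property `Near` holds for the values of similar functions as the aliquot
sum (`Values`: for `s(m)`, for `m - φ(m)` and for all `α m + β f(m)`, for almost all the `m` with a divisor `≥ m ^ (e
+ ρ)` which is a prime or the product of two different primes), and it holds for `s(m)` and `m - φ(m)` for a set of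
`m` of lower density at least `1 - e`. -/
theorem result : ∀ (G : ℕ → ℝ) (d : ℝ), Expanding G d → ∀ (n : ℕ) (A M : ℝ) (θ : ℝ),
    4 ≤ n → 0 < A → 10 / (3 * (n : ℝ) - 2) ≤ M → 0 ≤ θ → d * expo n A M + θ < 1 →
    (∀ ρ : ℝ, 0 < ρ → Values (d * expo n A M + θ + ρ) (Near n A M G θ)) ∧
      Dens (1 - (d * expo n A M + θ)) (Near n A M G θ) := by
  intro G d hG n A M θ hn hA hM hθ h1
  obtain ⟨h2, h3⟩ := values_set {t : ℕ | 1 ≤ t ∧ t ∈ Pool.Agent.R559.NP.DivBad (Bad n M) A} (fun t : ℕ => (t : ℝ)) hG (s := expo n A M) (expo_nonneg hn hA hM) hθ h1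
    (count hn hA hM)
  have hm : ∀ g : ℕ, (∀ t : ℕ, |(t : ℝ) - G g| ≤ (g : ℝ) ^ θ → t ∉ {t : ℕ | 1 ≤ t ∧ t ∈ Pool.Agent.R559.NP.DivBad (Bad n M) A}) → Near n A M G θ g :=
    fun g hg => near_of (fun t ht hw => hg t hw ht)
  exact ⟨fun ρ hρ => values_mono (h2 ρ hρ) hm, dens_mono h3 le_rfl hm⟩

end Pool.Agent.Results.MP_7ecdd4_nt.AliquotValues
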