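import Pool.Agent.U536.CF.F
import Pool.Agent.Results.MP_7ecdd4_nt.DivisorsInWindows
import Pool.Agent.U951.TR.Nat

/-!
# The strong `n`-conjecture for all tuples whose product has a divisor near an integer with a large common factor with a value of `f`

Let `n ≥ 4`, `A > 0`, `M ≥ 10 / (3 n - 2)` and `s = A (3 n - 5) / ((3 n - 2) M)`. Let `f` be a positive multiplicative
function of at most polynomial growth such that `f p ≤ M p` for the large primes `p`, with different values at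
different large primes; for example Euler's function or the sum of the divisors. Let `G` have steps bounded below by a
positive constant and growth at most `v^d`, for example `α v^d`. Let `b < 1` and `0 ≤ c < 2 b - 1`. For all `m ≤ N`
but `N exp (-(log N)^c)`, for EVERY integer `w ≥ exp ((log N)^b)` with `gcd(w, f(m)) ≥ w^ρ`: ALL tuples `x` of nonzero
pairwise coprime integers with sum zero, for which the product `x_1 ⋯ x_n` has a divisor `m` which differs from `G w`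
by at most `w ^ θ`, and `max |x_j| ≤ m ^ A`, satisfy `max |x_j| ≤ rad (x_1 ⋯ x_n) ^ M`, if `n ≥ 4`, `A > 0`, `M ≥ 10 /
(3 n - 2)`, `θ ≥ 0` and `d s + θ < ρ ≤ 1`. The integers `w` include all large divisors of `f(m)` and their multiples
by small integers; for Euler's function, the orders of the elements of the group of units modulo `m`.

As `M` may be large, every `ρ > θ` is possible. Proof. The tool `Pool.Agent.U536.CF` bounds the number of the `m ≤ N`
for which such a `w` lies in a given set with a power saving, by Hölder's inequality for the number of the ordered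
factorizations. The starting theorem `FewExceptions` of this problem bounds the number of the exceptional tuples with
`max |x_j| ≤ X` by `X ^ (s / A + ε)`, and a product has `X ^ o(1)` divisors (`Pool.Agent.R559.NP.count_div`).
-/

set_option autoImplicit false

namespace Pool.Agent.Results.MP_7ecdd4_nt.CommonFactors

open DivisorsInWindows (Admissible rad height Good κ_nonneg hcount)
open Pool.Agent.N733.TG (LM Expanding lm_totient lm_sigma expanding_pow)
open Pool.Agent.U536.CF (Common common_windows common_of_dvd common_order)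

/-- all tuples `x` of nonzero pairwise coprime integers with sum zero, for which the product `x_1 ⋯ x_n` has a divisor `m` with
`|m - G v| ≤ v ^ θ` and `max |x_j| ≤ m ^ A`, satisfy `max |x_j| ≤ rad (x_1 ⋯ x_n) ^ M` -/
def Near (n : ℕ) (A M : ℝ) (G : ℕ → ℝ) (θ : ℝ) (v : ℕ) : Prop :=
  ∀ m : ℕ, 1 ≤ m → |(m : ℝ) - G v| ≤ (v : ℝ) ^ θ → Good n A M m

/-- the exponent -/
noncomputable def expo (n : ℕ) (A M : ℝ) : ℝ := A * ((3 * (n : ℝ) - 5) / (3 * (n : ℝ) - 2) / M)

/-- the exceptional tuples -/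
def Bad (n : ℕ) (M : ℝ) (x : Fin n → ℤ) : Prop := Admissible x ∧ ¬ height x ≤ (rad x : ℝ) ^ M

lemma M_pos {n : ℕ} {M : ℝ} (hn : 4 ≤ n) (hM : 10 / (3 * (n : ℝ) - 2) ≤ M) : 0 < M := by
  have h4 : (4 : ℝ) ≤ n := by exact_mod_cast hn
  exact lt_of_lt_of_le (div_pos (by norm_num) (by linarith)) hM

lemma expo_nonneg {n : ℕ} {A M : ℝ} (hn : 4 ≤ n) (hA : 0 < A) (hM : 10 / (3 * (n : ℝ) - 2) ≤ M) : 0 ≤ expo n A M :=
  mul_nonneg hA.le (div_nonneg (κ_nonneg hn) (M_pos hn hM).le)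

open Classical in
lemma count {n : ℕ} {A M : ℝ} (hn : 4 ≤ n) (hA : 0 < A) (hM : 10 / (3 * (n : ℝ) - 2) ≤ M) (ε : ℝ) (hε : 0 < ε) :
    ∃ C : ℝ, ∀ X : ℝ, 1 ≤ X →
      {t : ℕ | t ∈ {t : ℕ | 1 ≤ t ∧ t ∈ Pool.Agent.R559.NP.DivBad (Bad n M) A} ∧ (t : ℝ) ≤ X}.Finite ∧
      ({t : ℕ | t ∈ {t : ℕ | 1 ≤ t ∧ t ∈ Pool.Agent.R559.NP.DivBad (Bad n M) A} ∧ (t : ℝ) ≤ X}.ncard : ℝ) ≤
        C * X ^ (expo n A M + ε) := by
  refine Pool.Agent.U951.TR.count_of_card _ (expo_nonneg hn hA hM) (fun ξ hξ => ?_) ε hε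
  obtain ⟨C, hC⟩ := Pool.Agent.R559.NP.count_div (n := n) (Bad := Bad n M) (fun x hx => hx.1.1)
    (s := (3 * (n : ℝ) - 5) / (3 * (n : ℝ) - 2) / M) hA (fun δ hδ => hcount hn hM δ hδ) ξ hξ
  refine ⟨C, fun X hX => le_trans (le_of_eq ?_) (hC X hX)⟩
  congr!

lemma near_of {n : ℕ} {A M θ : ℝ} {G : ℕ → ℝ} {v : ℕ}
    (h : ∀ t ∈ {t : ℕ | 1 ≤ t ∧ t ∈ Pool.Agent.R559.NP.DivBad (Bad n M) A}, ¬ |(t : ℝ) - G v| ≤ (v : ℝ) ^ θ) :
    Near n A M G θ v := by
  intro m hm hw x hx hd hh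
  by_contra hcon
  exact h m ⟨hm, ⟨x, ⟨hx, hcon⟩, hh, hd⟩⟩ hw

/-- **The strong `n`-conjecture for all tuples whose product has a divisor near all integers with a large common factor
with a value of a multiplicative function.** Let `f` be multiplicative and positive, of at most polynomial growth,
with `f p ≤ M p` at the large primes, and injective there. Let `G` have steps `≥ a > 0` and growth at most `v^d`. Let
`b < 1` and `0 ≤ c < 2 b - 1`, `n ≥ 4`, `A > 0`, `M ≥ 10 / (3 n - 2)`, `θ ≥ 0` and `d s + θ < ρ ≤ 1`. For all large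
`N`, for all `m ≤ N` but `N exp (-(log N)^c)`, the property `Near` holds at EVERY integer `w ≥ exp ((log N)^b)` with
`gcd(w, f(m)) ≥ w^ρ`. All divisors `w ≥ exp ((log N)^b)` of `f(m)` are such integers `w`, and for Euler's function the
orders `≥ exp ((log N)^b)` of the units modulo `m`. Euler's function and the sum of the divisors are examples of `f`,
and `α v^d` with `α > 0`, `d ≥ 1` is an example of `G`. -/
theorem result :
    (∀ f : ℕ → ℕ, LM f → ∀ (G : ℕ → ℝ) (d : ℝ), Expanding G d → ∀ (n : ℕ) (A M : ℝ)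
      (θ ρ b c : ℝ), 4 ≤ n → 0 < A → 10 / (3 * (n : ℝ) - 2) ≤ M → 0 ≤ θ → d * expo n A M + θ < ρ → ρ ≤ 1 → b < 1 → 0 ≤ c → c < 2 * b - 1 →
      ∃ N₀ : ℕ, ∀ N : ℕ, N₀ ≤ N →
        ({m : ℕ | 1 ≤ m ∧ m ≤ N ∧ ¬ ∀ w : ℕ, Common f b ρ N m w → Near n A M G θ w}.ncard : ℝ) ≤
          N * Real.exp (-(Real.log N ^ c))) ∧
    (LM Nat.totient ∧ LM (fun m => ∑ d ∈ m.divisors, d)) ∧
    (∀ α d : ℝ, 0 < α → 1 ≤ d → Expanding (fun v => α * (v : ℝ) ^ d) d) ∧
    (∀ (f : ℕ → ℕ) (b ρ : ℝ) (N m w : ℕ), ρ ≤ 1 → Real.exp (Real.log N ^ b) ≤ (w : ℝ) → w ∣ f m → Common f b ρ N m w) ∧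
    ∀ (b ρ : ℝ) (N m : ℕ), ρ ≤ 1 → ∀ x : (ZMod m)ˣ, Real.exp (Real.log N ^ b) ≤ (orderOf x : ℝ) →
      Common Nat.totient b ρ N m (orderOf x) := by
  refine ⟨?_, ⟨lm_totient, lm_sigma⟩, fun α d hα hd => expanding_pow hα hd, fun f b ρ N m w hρ hw hd => common_of_dvd hρ hw hd,
    fun b ρ N m hρ x hx => common_order hρ x hx⟩
  intro f hf G d hG n A M θ ρ b c hn hA hM hθ h1 hρ hb hc hcb
  obtain ⟨N₀, hN₀⟩ := common_windows {t : ℕ | 1 ≤ t ∧ t ∈ Pool.Agent.R559.NP.DivBad (Bad n M) A} (fun t : ℕ => (t : ℝ)) hf hG (s := expo n A M) (expo_nonneg hn hA hM) hθ h1 hρ hb hc hcb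
    (count hn hA hM)
  refine ⟨N₀, fun N hN => le_trans (Nat.cast_le.2 (Set.ncard_le_ncard ?_ ?_)) (hN₀ N hN)⟩
  · rintro m ⟨h2, h3, h4⟩
    push Not at h4
    obtain ⟨w, hw, h5⟩ := h4
    refine ⟨h2, h3, w, hw, ?_⟩
    by_contra hcon
    push Not at hcon
    exact h5 (near_of (fun t ht => not_le.2 (hcon t ht)))
  · exact (Set.finite_Icc 1 N).subset fun m hm => ⟨hm.1, hm.2.1⟩

end Pool.Agent.Results.MP_7ecdd4_nt.CommonFactors
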