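import Pool.Agent.U663.CF.Typ

/-!
# The strong `n`-conjecture: what almost all exceptions look like

Let `n ≥ 4` and `1/n < M < 3/(3n-1)`. Consider the `n`-tuples of pairwise coprime nonzero integers with sum
zero and height `H = max |x_i| ≤ X` which violate `H ≤ rad(x_1 ⋯ x_n) ^ M`. All of them, except for a
proportion `exp (- η √(log X / log log X))`, have coordinates with

  `|x_i| = H ^ (1 + o(1))` and `rad(x_i) = H ^ (1/(n M) + o(1))` for every `i`,

and no vanishing subsum: the total gain `|x_1 ⋯ x_n| / rad(x_1 ⋯ x_n) = H ^ (n - 1/M + o(1))` is equally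
distributed over the coordinates.
-/

set_option autoImplicit false

namespace Pool.Agent.Results.MP_7ecdd4_nt.EqualShares

open Finset Filter Topology

/-- the tuples of the problem: pairwise coprime nonzero integers with sum zero -/
def Admissible {n : ℕ} (x : Fin n → ℤ) : Prop :=
  (∀ i, x i ≠ 0) ∧ (∀ i j, i ≠ j → Int.gcd (x i) (x j) = 1) ∧ ∑ i, x i = 0

/-- the product of the primes that divide `a` -/
def rad (a : ℤ) : ℕ := ∏ p ∈ a.natAbs.primeFactors, p

/-- `max |x_i|` -/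
def height {n : ℕ} (x : Fin n → ℤ) : ℕ := univ.sup fun i => (x i).natAbs

/-- the admissible tuples with `max |x_i| ≤ X` that violate `max |x_i| ≤ rad (x_1 ⋯ x_n) ^ M` -/
def Exceptions (n : ℕ) (M X : ℝ) : Set (Fin n → ℤ) :=
  {x | Admissible x ∧ (height x : ℝ) ≤ X ∧ (rad (∏ i, x i) : ℝ) ^ M < height x}

/-- all coordinates are almost as large as the height `H`, all their radicals are `H ^ (1/(n M))`, up to
factors `H ^ (± ε)`, and no proper subsum vanishes -/
def Balanced {n : ℕ} (M ε : ℝ) (x : Fin n → ℤ) : Prop :=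
  (∀ I : Finset (Fin n), I.Nonempty → I ≠ univ → ∑ i ∈ I, x i ≠ 0) ∧
  ∀ i, (height x : ℝ) ^ (1 - ε) ≤ |(x i : ℝ)| ∧
    (height x : ℝ) ^ (1 / (n * M) - ε) ≤ rad (x i) ∧
    (rad (x i) : ℝ) ≤ (height x : ℝ) ^ (1 / (n * M) + ε)

theorem pr_eq {n : ℕ} (x : Fin n → ℤ) :
    Pool.Agent.N906.NT.pr (Pool.Agent.N906.NT.ab x) = (∏ i, x i).natAbs := by
  unfold Pool.Agent.N906.NT.pr Pool.Agent.N906.NT.ab
  rw [← Int.natAbsHom_apply, map_prod]
  rfl

theorem rad_eq {n : ℕ} (x : Fin n → ℤ) :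
    rad (∏ i, x i) = Pool.Agent.N906.NT.rr (Pool.Agent.N906.NT.ab x) := by
  unfold rad Pool.Agent.N906.NT.rr
  rw [pr_eq]

theorem adm1 {n : ℕ} (x : Fin n → ℤ) (hx : Admissible x) :
    ∑ i, x i = 0 ∧ (∀ i, x i ≠ 0) ∧
      Pool.Agent.N906.NT.Tp (Pool.Agent.N906.NT.Dl n 1) (Pool.Agent.N906.NT.ab x) := by
  refine ⟨hx.2.2, hx.1, fun i => Nat.one_le_iff_ne_zero.2
    (Int.natAbs_ne_zero.2 (hx.1 i)), fun p hp => ?_⟩
  unfold Pool.Agent.N906.NT.Dl
  rw [mem_filter]
  refine ⟨mem_univ _, ?_⟩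
  rw [card_le_one]
  intro i hi j hj
  rw [mem_filter] at hi hj
  by_contra hij
  have h1 := Nat.dvd_gcd hi.2 hj.2
  have h2 : Nat.gcd (x i).natAbs (x j).natAbs = 1 := hx.2.1 i j hij
  unfold Pool.Agent.N906.NT.ab at h1
  rw [h2] at h1
  exact hp.one_lt.ne' (Nat.dvd_one.1 h1)

theorem adm2 {n : ℕ} (x : Fin n → ℤ) (h1 : ∑ i, x i = 0) (h2 : ∀ i, x i ≠ 0)
    (_h3 : Pool.Agent.N906.NT.NV x)
    (h4 : Pool.Agent.N906.NT.Tp (Pool.Agent.N906.NT.Dl n 1) (Pool.Agent.N906.NT.ab x)) :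
    Admissible x := by
  refine ⟨h2, fun i j hij => ?_, h1⟩
  by_contra hg
  obtain ⟨p, hp, hpd⟩ := Nat.exists_prime_and_dvd hg
  have h5 := h4.2 p hp
  unfold Pool.Agent.N906.NT.Dl at h5
  rw [mem_filter, card_le_one] at h5
  have hpi : p ∣ (x i).natAbs := hpd.trans (Nat.gcd_dvd_left _ _)
  have hpj : p ∣ (x j).natAbs := hpd.trans (Nat.gcd_dvd_right _ _)
  exact hij (h5.2 i (by rw [mem_filter]; exact ⟨mem_univ _, hpi⟩) j
    (by rw [mem_filter]; exact ⟨mem_univ _, hpj⟩))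

theorem exc_eq {n : ℕ} (M X : ℝ) : Exceptions n M X =
    Pool.Agent.N906.NT.VV (Admissible (n := n)) M X := by
  unfold Exceptions Pool.Agent.N906.NT.VV
  ext x
  rw [Set.mem_ofPred_eq, Set.mem_ofPred_eq, rad_eq]
  rfl

/-- the gain of one coordinate -/
theorem gs_single {n : ℕ} {x : Fin n → ℤ} (hx : Admissible x) (i : Fin n) :
    Pool.Agent.U663.CF.gs (Pool.Agent.N906.NT.ab x) {i} =
      Real.log |(x i : ℝ)| - Real.log (rad (x i)) := by
  classical
  have hab0 : ∀ j, Pool.Agent.N906.NT.ab x j ≠ 0 := fun j => Int.natAbs_ne_zero.2 (hx.1 j)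
  have hset : (Pool.Agent.N906.NT.pr (Pool.Agent.N906.NT.ab x)).primeFactors.filter
      (fun p => Pool.Agent.U663.CF.fp (Pool.Agent.N906.NT.ab x) p = {i}) =
      (x i).natAbs.primeFactors := by
    ext p
    rw [mem_filter]
    constructor
    · rintro ⟨h1, h2⟩
      have h3 : i ∈ Pool.Agent.U663.CF.fp (Pool.Agent.N906.NT.ab x) p := by
        rw [h2]
        exact mem_singleton_self i
      unfold Pool.Agent.U663.CF.fp at h3
      rw [mem_filter] at h3
      exact Nat.mem_primeFactors.2 ⟨Nat.prime_of_mem_primeFactors h1, h3.2, hab0 i⟩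
    · intro h
      have hp := Nat.prime_of_mem_primeFactors h
      have hd : p ∣ Pool.Agent.N906.NT.ab x i := Nat.dvd_of_mem_primeFactors h
      refine ⟨Nat.mem_primeFactors.2 ⟨hp, hd.trans (Finset.dvd_prod_of_mem _ (mem_univ i)),
        Finset.prod_ne_zero_iff.2 fun j _ => hab0 j⟩, ?_⟩
      ext j
      unfold Pool.Agent.U663.CF.fp
      rw [mem_filter, mem_singleton]
      constructor
      · rintro ⟨-, hj⟩
        by_contra hji
        have h1 := Nat.dvd_gcd hj hd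
        have h2 : Nat.gcd (x j).natAbs (x i).natAbs = 1 := hx.2.1 j i hji
        unfold Pool.Agent.N906.NT.ab at h1
        rw [h2] at h1
        exact hp.one_lt.ne' (Nat.dvd_one.1 h1)
      · rintro rfl
        exact ⟨mem_univ _, hd⟩
  have hfac : ∀ p ∈ (x i).natAbs.primeFactors,
      (Pool.Agent.N906.NT.pr (Pool.Agent.N906.NT.ab x)).factorization p =
        (x i).natAbs.factorization p := by
    intro p hp
    rw [Pool.Agent.U663.CF.fact_pr hab0, Finset.sum_eq_single i]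
    · rfl
    · intro j _ hji
      apply Nat.factorization_eq_zero_of_not_dvd
      intro hj
      have h1 := Nat.dvd_gcd hj (Nat.dvd_of_mem_primeFactors hp)
      have h2 : Nat.gcd (x j).natAbs (x i).natAbs = 1 := hx.2.1 j i hji
      unfold Pool.Agent.N906.NT.ab at h1
      rw [h2] at h1
      exact (Nat.prime_of_mem_primeFactors hp).one_lt.ne' (Nat.dvd_one.1 h1)
    · intro h
      exact absurd (mem_univ i) h
  unfold Pool.Agent.U663.CF.gs
  rw [hset, Finset.sum_congr rfl fun p hp => by rw [hfac p hp]]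
  have h1 : ((∏ p ∈ (x i).natAbs.primeFactors, p ^ (x i).natAbs.factorization p : ℕ) : ℝ) =
      |(x i : ℝ)| := by
    have h2 := Nat.prod_factorization_pow_eq_self (hab0 i)
    have h3 : (∏ p ∈ (x i).natAbs.primeFactors, p ^ (x i).natAbs.factorization p : ℕ) =
        (x i).natAbs := h2
    rw [h3, Nat.cast_natAbs, Int.cast_abs]
  rw [← h1, Nat.cast_prod, Real.log_prod]
  · unfold rad
    rw [Nat.cast_prod, Real.log_prod]
    · rw [← Finset.sum_sub_distrib]
      refine Finset.sum_congr rfl fun p _ => ?_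
      rw [Nat.cast_pow, Real.log_pow]
      ring
    · intro p hp
      exact_mod_cast (Nat.prime_of_mem_primeFactors hp).ne_zero
  · intro p hp
    have := (Nat.prime_of_mem_primeFactors hp).pos
    exact_mod_cast (pow_pos this _).ne'

theorem bal_of {n : ℕ} (hn : 4 ≤ n) {M ε : ℝ} (hM : 0 < M) (hε : 0 < ε) {x : Fin n → ℤ}
    (hx : Admissible x) (h : Pool.Agent.U663.CF.Gd ((n : ℝ) - 1 / M) 1 (ε / 2) x) :
    Balanced M ε x := by
  have hn0 : (0 : ℝ) < n := by
    have : (4 : ℝ) ≤ n := by exact_mod_cast hn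
    linarith
  obtain ⟨h1, h2, -, h4, -⟩ := h
  have hHt1 : (1 : ℝ) ≤ height x := by
    have h4 := Pool.Agent.N906.NT.le_Ht x ⟨0, by omega⟩
    have h5 : (1 : ℝ) ≤ |(x ⟨0, by omega⟩ : ℝ)| := by
      have := Int.one_le_abs (hx.1 ⟨0, by omega⟩)
      exact_mod_cast this
    exact h5.trans h4
  have hHt0 : (0 : ℝ) < height x := by linarith
  obtain ⟨h0, hh0⟩ : ∃ h : ℝ, h = Real.log (height x) := ⟨_, rfl⟩
  have hh1 : 0 ≤ h0 := by rw [hh0]; exact Real.log_nonneg hHt1
  refine ⟨h1, fun i => ?_⟩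
  have hxi : (0 : ℝ) < |(x i : ℝ)| := by
    have : (x i : ℝ) ≠ 0 := by exact_mod_cast hx.1 i
    positivity
  have hri : (0 : ℝ) < rad (x i) := by
    unfold rad
    exact_mod_cast Finset.prod_pos fun p hp => (Nat.prime_of_mem_primeFactors hp).pos
  have k1 : (1 - ε / 2) * h0 ≤ Real.log |(x i : ℝ)| := by rw [hh0]; exact h2 i
  have k2 : Real.log |(x i : ℝ)| ≤ h0 := by
    rw [hh0]
    exact Real.log_le_log hxi (Pool.Agent.N906.NT.le_Ht x i)
  have k3 := h4 {i} (card_singleton i)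
  rw [gs_single hx i, Nat.choose_one_right] at k3
  have k4 : ((n : ℝ) - 1 / M) / (n : ℕ) = 1 - 1 / (n * M) := by field_simp
  rw [k4] at k3
  have k5 : |Real.log |(x i : ℝ)| - Real.log (rad (x i)) - (1 - 1 / (n * M)) * h0| ≤ ε / 2 * h0 := by
    rw [hh0]
    exact k3
  rw [abs_le] at k5
  have hεh : 0 ≤ ε * h0 := by positivity
  refine ⟨?_, ?_, ?_⟩
  · rw [← Real.log_le_log_iff (by positivity) hxi, Real.log_rpow hHt0, ← hh0]
    linarith
  · rw [← Real.log_le_log_iff (by positivity) hri, Real.log_rpow hHt0, ← hh0]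
    linarith [k5.2]
  · rw [← Real.log_le_log_iff hri (by positivity), Real.log_rpow hHt0, ← hh0]
    linarith [k5.1]

/-- **Theorem.** Let `n ≥ 4`, `1/n < M < 3/(3n-1)` and `ε > 0`. There is `η > 0` such that for all large `X`
the set of the `n`-tuples of pairwise coprime nonzero integers with sum zero and height `H = max |x_i| ≤ X`
that violate `H ≤ rad (x_1 ⋯ x_n) ^ M` is finite and not empty, and for all of them, except for a proportion of
at most `exp (- η √(log X / log log X))`, no proper subsum vanishes and for every `i`: `|x_i| ≥ H ^ (1 - ε)` and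
`H ^ (1/(n M) - ε) ≤ rad (x_i) ≤ H ^ (1/(n M) + ε)`. -/
theorem result : ∀ n : ℕ, 4 ≤ n → ∀ M : ℝ, 1 / (n : ℝ) < M → M < 3 / (3 * n - 1) →
    ∀ ε : ℝ, 0 < ε → ∃ η : ℝ, 0 < η ∧ ∀ᶠ X : ℝ in atTop,
      (Exceptions n M X).Finite ∧ (Exceptions n M X).Nonempty ∧
      ({x | x ∈ Exceptions n M X ∧ ¬ Balanced M ε x}.ncard : ℝ) ≤
        Real.exp (-(η * √(Real.log X / Real.log (Real.log X)))) *
          ((Exceptions n M X).ncard : ℝ) := by
  classical
  intro n hn M hM1 hM2 ε hε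
  have hn4 : (4 : ℝ) ≤ n := by exact_mod_cast hn
  have hM : 0 < M := lt_trans (by positivity) hM1
  obtain ⟨κ, hκ⟩ : ∃ κ : ℝ, κ = (n : ℝ) - 1 / M := ⟨_, rfl⟩
  have hκ0 : 0 < κ := by
    rw [hκ, sub_pos, div_lt_iff₀ hM]
    rw [div_lt_iff₀ (by linarith)] at hM1
    linarith
  have hκ1 : κ < 1 / 3 := by
    rw [lt_div_iff₀ (by linarith)] at hM2
    have h1 : (n : ℝ) - 1 / 3 < 1 / M := by
      rw [lt_div_iff₀ hM]
      linarith
    rw [hκ]
    linarith
  have hMκ : 1 / ((n : ℝ) - κ) = M := by rw [hκ, sub_sub_cancel, one_div_one_div]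
  obtain ⟨η, hη, h⟩ := Pool.Agent.U663.CF.typical (n := n) (r := 1) le_rfl (by omega)
    hκ0 hκ1 (Admissible (n := n)) adm1 adm2 (half_pos hε)
  have hlow := Pool.Agent.N906.NT.lower Pool.Agent.N906.NT.lo_all (n := n) (r := 1) le_rfl
    (by omega) hM hκ hκ0 hκ1 (Admissible (n := n)) adm2 1 one_pos
  rw [hMκ] at h
  refine ⟨η, hη, ?_⟩
  filter_upwards [Real.tendsto_log_atTop.eventually h, Real.tendsto_log_atTop.eventually hlow,
    eventually_gt_atTop (0 : ℝ)] with X h1 h2 hX0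
  rw [Real.exp_log hX0] at h1
  rw [Real.exp_log hX0] at h2
  rw [exc_eq]
  refine ⟨Pool.Agent.N906.NT.VV_fin _ _ _, ?_, ?_⟩
  · have h3 := (Real.exp_pos _).trans_le h2
    have h4 : 0 < (Pool.Agent.N906.NT.VV (Admissible (n := n)) M X).ncard := by
      exact_mod_cast h3
    exact Set.nonempty_of_ncard_ne_zero h4.ne'
  · unfold Pool.Agent.N906.NT.Gs at h1
    have e1 : ((1 : ℕ) : ℝ) / (((1 : ℕ) : ℝ) + 1) = 1 / 2 := by norm_num
    rw [e1, ← Real.sqrt_eq_rpow] at h1
    refine le_trans ?_ h1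
    have h5 : {x | x ∈ Pool.Agent.N906.NT.VV (Admissible (n := n)) M X ∧ ¬ Balanced M ε x} ⊆
        {x | x ∈ Pool.Agent.N906.NT.VV (Admissible (n := n)) M X ∧
          ¬ Pool.Agent.U663.CF.Gd κ 1 (ε / 2) x} := by
      rintro x ⟨hx1, hx2⟩
      refine ⟨hx1, fun hG => hx2 ?_⟩
      rw [hκ] at hG
      exact bal_of hn hM hε hx1.1 hG
    exact_mod_cast Set.ncard_le_ncard h5
      ((Pool.Agent.N906.NT.VV_fin _ _ _).subset fun x hx => hx.1)

end Pool.Agent.Results.MP_7ecdd4_nt.EqualShares
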