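import Pool.Agent.U405.RS.F2
import Pool.Agent.Results.MP_7ecdd4_nt.DivisorsInWindows
import Pool.Agent.U951.TR.Nat

/-!
# The strong `n`-conjecture for all tuples whose product has a divisor near a value of `f` at thin sets of arguments

Let `n ≥ 4`, `A > 0`, `M ≥ 10 / (3 n - 2)` and `s = A (3 n - 5) / ((3 n - 2) M)`. Let `f` be a positive multiplicative
function of at most polynomial growth which for each `a ≥ 1` is injective at the powers `p ^ a` of the large primes
and at most `M p ^ a` there; for example Euler's function or the sum of the divisors. Let `G` have steps bounded below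
by a positive constant and growth at most `v ^ d`, for example `α v ^ d` with `α > 0` and `d ≥ 1`. Let `θ ≥ 0` and `e
= d s + θ`. ALL tuples `x` of nonzero pairwise coprime integers with sum zero, for which the product `x_1 ⋯ x_n` has a
divisor `m` which differs from `G (f v)` by at most `(f v) ^ θ`, and `max |x_j| ≤ m ^ A`, satisfy `max |x_j| ≤ rad
(x_1 ⋯ x_n) ^ M`, for almost all `v` (with a saving of any power of the logarithm) in each of these sets:

* the values of any integer polynomial without repeated roots, of degree `< 1 / e`;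
* the shifted primes `p + a`, `a` any integer, if `e < 1`;
* the intervals `(x, x + y]`, `x^τ ≤ y ≤ x`, for every `τ > e`, `τ ≤ 1`.

As `M` may be large, `e` may be as close to `θ` as we like: for polynomials of any degree there is an `M`. Proof. The
tool `Pool.Agent.U405.RS` (weighted Rankin method) shows that the values of `f` at almost all elements of these sets
avoid every set with a power saving. The starting theorem `FewExceptions` of this problem bounds the number of the
exceptional tuples with `max |x_j| ≤ X` by `X ^ (s / A + ε)`, and a product has `X ^ o(1)` divisors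
(`Pool.Agent.R559.NP.count_div`).
-/

set_option autoImplicit false

namespace Pool.Agent.Results.MP_7ecdd4_nt.SparseArguments

open DivisorsInWindows (Admissible rad height Good κ_nonneg hcount)
open Pool.Agent.N733.TG (Expanding expanding_pow)
open Pool.Agent.U405.RS (PM Sparse sparse_set' examples)

/-- all tuples `x` of nonzero pairwise coprime integers with sum zero, for which the product `x_1 ⋯ x_n` has a divisor `m` with
`|m - G v| ≤ v ^ θ` and `max |x_j| ≤ m ^ A`, satisfy `max |x_j| ≤ rad (x_1 ⋯ x_n) ^ M` -/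
def Near (n : ℕ) (A M : ℝ) (G : ℕ → ℝ) (θ : ℝ) (v : ℕ) : Prop :=
  ∀ m : ℕ, 1 ≤ m → |(m : ℝ) - G v| ≤ (v : ℝ) ^ θ → Good n A M m

/-- the exponent -/
noncomputable def expo (n : ℕ) (A M : ℝ) : ℝ := A * ((3 * (n : ℝ) - 5) / (3 * (n : ℝ) - 2) / M)

/-- the exceptional tuples -/
def Bad (n : ℕ) (M : ℝ) (x : Fin n → ℤ) : Prop := Admissible x ∧ ¬ height x ≤ (rad x : ℝ) ^ M

lemma M_pos {n : ℕ} {M : ℝ} (hn : 4 ≤ n) (hM : 10 / (3 * (n : ℝ) - 2) ≤ M) : 0 < M := by
  have h4 : (4 : ℝ) ≤ n := by exact_mod_cast hn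
  exact lt_of_lt_of_le (div_pos (by norm_num) (by linarith)) hM

lemma expo_nonneg {n : ℕ} {A M : ℝ} (hn : 4 ≤ n) (hA : 0 < A) (hM : 10 / (3 * (n : ℝ) - 2) ≤ M) : 0 ≤ expo n A M :=
  mul_nonneg hA.le (div_nonneg (κ_nonneg hn) (M_pos hn hM).le)

open Classical in
lemma count {n : ℕ} {A M : ℝ} (hn : 4 ≤ n) (hA : 0 < A) (hM : 10 / (3 * (n : ℝ) - 2) ≤ M) (ε : ℝ) (hε : 0 < ε) :
    ∃ C : ℝ, ∀ X : ℝ, 1 ≤ X →
      {t : ℕ | t ∈ {t : ℕ | 1 ≤ t ∧ t ∈ Pool.Agent.R559.NP.DivBad (Bad n M) A} ∧ (t : ℝ) ≤ X}.Finite ∧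
      ({t : ℕ | t ∈ {t : ℕ | 1 ≤ t ∧ t ∈ Pool.Agent.R559.NP.DivBad (Bad n M) A} ∧ (t : ℝ) ≤ X}.ncard : ℝ) ≤
        C * X ^ (expo n A M + ε) := by
  refine Pool.Agent.U951.TR.count_of_card _ (expo_nonneg hn hA hM) (fun ξ hξ => ?_) ε hε
  obtain ⟨C, hC⟩ := Pool.Agent.R559.NP.count_div (n := n) (Bad := Bad n M) (fun x hx => hx.1.1)
    (s := (3 * (n : ℝ) - 5) / (3 * (n : ℝ) - 2) / M) hA (fun δ hδ => hcount hn hM δ hδ) ξ hξ
  refine ⟨C, fun X hX => le_trans (le_of_eq ?_) (hC X hX)⟩
  congr!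

lemma near_of {n : ℕ} {A M θ : ℝ} {G : ℕ → ℝ} {v : ℕ}
    (h : ∀ t ∈ {t : ℕ | 1 ≤ t ∧ t ∈ Pool.Agent.R559.NP.DivBad (Bad n M) A}, ¬ |(t : ℝ) - G v| ≤ (v : ℝ) ^ θ) :
    Near n A M G θ v := by
  intro m hm hw x hx hd hh
  by_contra hcon
  exact h m ⟨hm, ⟨x, ⟨hx, hcon⟩, hh, hd⟩⟩ hw

/-- **The strong `n`-conjecture for all tuples whose product has a divisor near the values of `f` at thin sets of
arguments.** Let `f` be in the class `PM`, let `G` have steps `≥ const > 0` and growth at most `v ^ d`, `n ≥ 4`, `A >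
0`, `M ≥ 10 / (3 n - 2)`, `θ ≥ 0`. For every `U` the property `Near` holds in the sense `Sparse e f`, `e = d s + θ`:
with a saving of `(log x)^U` it holds at `f v` for almost all `v` among the positive values of every integer
polynomial without repeated roots of degree `< 1 / e`; among the shifted primes `p + a` for every `a`, if `e < 1`; and
in all intervals `(x, x + y]`, `x^τ ≤ y ≤ x`, `e < τ ≤ 1`. Euler's function, the sum of the divisors and the identity
are in the class, and `α v^d` with `α > 0`, `d ≥ 1` is an example of `G`. -/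
theorem result :
    (∀ f : ℕ → ℕ, PM f → ∀ (G : ℕ → ℝ) (d : ℝ), Expanding G d → ∀ (n : ℕ) (A M : ℝ) (θ : ℝ),
      4 ≤ n → 0 < A → 10 / (3 * (n : ℝ) - 2) ≤ M → 0 ≤ θ → ∀ U : ℕ, Sparse (d * expo n A M + θ) f (Near n A M G θ) U) ∧
    (PM Nat.totient ∧ PM (fun m => ∑ d ∈ m.divisors, d) ∧ PM (fun m => m)) ∧
    ∀ α d : ℝ, 0 < α → 1 ≤ d → Expanding (fun v => α * (v : ℝ) ^ d) d := by
  refine ⟨?_, examples, fun α d hα hd => expanding_pow hα hd⟩
  intro f hf G d hG n A M θ hn hA hM hθ U
  exact sparse_set' {t : ℕ | 1 ≤ t ∧ t ∈ Pool.Agent.R559.NP.DivBad (Bad n M) A} (fun t : ℕ => (t : ℝ)) hf hG (s := expo n A M) (expo_nonneg hn hA hM) hθ rfl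
    (count hn hA hM) _ U (fun v hv => near_of hv)

end Pool.Agent.Results.MP_7ecdd4_nt.SparseArguments
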